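import Mathlib

/-!
# Null Lagrangian identity for smooth maps `ℝⁿ → ℝⁿ`
-/

set_option autoImplicit false
set_option linter.all false

open MeasureTheory Set Filter Topology Metric
open scoped ENNReal NNReal

namespace Pool.Agent.H721KI

noncomputable section

variable {n : ℕ}

/-- `ℝⁿ` with the sup norm. -/
abbrev V (n : ℕ) : Type := Fin n → ℝ

/-- the `j`-th basis vector -/
abbrev ee (j : Fin n) : V n := Pi.single j 1

/-- derivative matrix -/
def DM (F : V n → V n) (x : V n) : Matrix (Fin n) (Fin n) ℝ :=
  Matrix.of fun i j => fderiv ℝ (fun y => F y i) x (ee j)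

lemma det_hasDerivAt {A : ℝ → Matrix (Fin n) (Fin n) ℝ} {A' : Matrix (Fin n) (Fin n) ℝ} {t : ℝ}
    (h : ∀ i j, HasDerivAt (fun s => A s i j) (A' i j) t) :
    HasDerivAt (fun s => (A s).det) (∑ k, ((A t).updateRow k (A' k)).det) t := by
  have e1 : (fun s => (A s).det) = fun s => ∑ σ : Equiv.Perm (Fin n),
      ((Equiv.Perm.sign σ : ℤ) : ℝ) * ∏ i, A s i (σ i) := by
    funext s
    rw [← Matrix.det_transpose, Matrix.det_apply']
    simp [Matrix.transpose_apply]
  rw [e1]
  have e2 : ∑ k, ((A t).updateRow k (A' k)).det = ∑ σ : Equiv.Perm (Fin n),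
      ((Equiv.Perm.sign σ : ℤ) : ℝ) * ∑ k, (∏ i ∈ Finset.univ.erase k, A t i (σ i)) * A' k (σ k) := by
    have : ∀ k, ((A t).updateRow k (A' k)).det = ∑ σ : Equiv.Perm (Fin n),
      ((Equiv.Perm.sign σ : ℤ) : ℝ) * ((∏ i ∈ Finset.univ.erase k, A t i (σ i)) * A' k (σ k)) := by
      intro k
      rw [← Matrix.det_transpose, Matrix.det_apply']
      refine Finset.sum_congr rfl fun σ _ => ?_
      congr 1
      simp only [Matrix.transpose_apply]
      rw [← Finset.prod_erase_mul _ _ (Finset.mem_univ k)]
      congr 1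
      · refine Finset.prod_congr rfl fun i hi => ?_
        rw [Matrix.updateRow_ne (Finset.ne_of_mem_erase hi)]
      · rw [Matrix.updateRow_self]
    simp only [this]
    rw [Finset.sum_comm]
    simp only [Finset.mul_sum]
  rw [e2]
  refine HasDerivAt.fun_sum fun σ _ => ?_
  refine HasDerivAt.const_mul _ ?_
  have := HasDerivAt.fun_finset_prod (u := Finset.univ) (f := fun i s => A s i (σ i))
    (f' := fun i => A' i (σ i)) (x := t) (fun i _ => h i (σ i))
  simpa [smul_eq_mul] using this

lemma line_deriv {G : V n → ℝ} {x v : V n} (hG : DifferentiableAt ℝ G x) :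
    HasDerivAt (fun s : ℝ => G (x + s • v)) (fderiv ℝ G x v) 0 := by
  have h : HasFDerivAt G (fderiv ℝ G x) (x + (0:ℝ) • v) := by simpa using hG.hasFDerivAt
  have h2 : HasDerivAt (fun s : ℝ => x + s • v) v 0 := by
    simpa using ((hasDerivAt_id (0:ℝ)).smul_const v).const_add x
  exact h.comp_hasDerivAt (0:ℝ) h2

lemma fderiv_eq_of_line {G : V n → ℝ} {x v : V n} {c : ℝ} (hG : DifferentiableAt ℝ G x)
    (h : HasDerivAt (fun s : ℝ => G (x + s • v)) c 0) : fderiv ℝ G x v = c :=
  (line_deriv hG).unique h

lemma contDiff_coord {F : V n → V n} (hF : ContDiff ℝ (⊤ : ℕ∞) F) (i : Fin n) :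
    ContDiff ℝ (⊤ : ℕ∞) (fun y => F y i) := by
  fun_prop

lemma contDiff_dir {G : V n → ℝ} (hG : ContDiff ℝ (⊤ : ℕ∞) G) (v : V n) :
    ContDiff ℝ (⊤ : ℕ∞) (fun x => fderiv ℝ G x v) := by
  have := (hG.fderiv_right (m := (⊤ : ℕ∞)) (by norm_cast)).clm_apply (contDiff_const (c := v))
  exact this

lemma contDiff_DM {F : V n → V n} (hF : ContDiff ℝ (⊤ : ℕ∞) F) (i j : Fin n) :
    ContDiff ℝ (⊤ : ℕ∞) (fun x => DM F x i j) :=
  contDiff_dir (contDiff_coord hF i) _

lemma contDiff_det {A : V n → Matrix (Fin n) (Fin n) ℝ}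
    (h : ∀ i j, ContDiff ℝ (⊤ : ℕ∞) (fun x => A x i j)) :
    ContDiff ℝ (⊤ : ℕ∞) (fun x => (A x).det) := by
  have : (fun x => (A x).det) = fun x => ∑ σ : Equiv.Perm (Fin n),
      ((Equiv.Perm.sign σ : ℤ) : ℝ) * ∏ i, A x (σ i) i := by
    funext x; rw [Matrix.det_apply']
  rw [this]
  refine ContDiff.sum fun σ _ => contDiff_const.mul ?_
  exact contDiff_prod fun i _ => h (σ i) i

lemma contDiff_adj {A : V n → Matrix (Fin n) (Fin n) ℝ}
    (h : ∀ i j, ContDiff ℝ (⊤ : ℕ∞) (fun x => A x i j)) (j i : Fin n) :
    ContDiff ℝ (⊤ : ℕ∞) (fun x => (A x).adjugate j i) := by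
  simp only [Matrix.adjugate_apply]
  refine contDiff_det fun k l => ?_
  by_cases hk : k = i
  · subst hk; simp only [Matrix.updateRow_self]; exact contDiff_const
  · simp only [Matrix.updateRow_ne hk]; exact h k l

/-- symmetry of second derivatives -/
lemma second_symm {G : V n → ℝ} (hG : ContDiff ℝ (⊤ : ℕ∞) G) (x v w : V n) :
    fderiv ℝ (fun y => fderiv ℝ G y v) x w = fderiv ℝ (fun y => fderiv ℝ G y w) x v := by
  have hs : IsSymmSndFDerivAt ℝ G x := by
    refine hG.contDiffAt.isSymmSndFDerivAt ?_
    simp only [minSmoothness_of_isRCLikeNormedField]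
    exact (WithTop.coe_le_coe.2 (le_top : (2 : ℕ∞) ≤ ⊤))
  have hd : DifferentiableAt ℝ (fderiv ℝ G) x :=
    ((hG.fderiv_right (m := (⊤ : ℕ∞)) (by norm_cast)).differentiable (by simp)).differentiableAt
  have e : ∀ v w, fderiv ℝ (fun y => fderiv ℝ G y v) x w = fderiv ℝ (fderiv ℝ G) x w v := by
    intro v w
    rw [fderiv_clm_apply hd (differentiableAt_const v)]
    simp
  rw [e, e]
  exact hs w v

/-- Piola identity -/
lemma piola {F : V n → V n} (hF : ContDiff ℝ (⊤ : ℕ∞) F) (i : Fin n) (x : V n) :
    ∑ j, fderiv ℝ (fun y => (DM F y).adjugate j i) x (ee j) = 0 := by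
  classical
  set A := DM F x with hA
  -- second derivatives
  set H : Fin n → Fin n → Fin n → ℝ := fun k j l =>
    fderiv ℝ (fun y => DM F y k l) x (ee j) with hH
  have hsym : ∀ k j l, H k j l = H k l j := by
    intro k j l
    simp only [hH, DM, Matrix.of_apply]
    exact second_symm (contDiff_coord hF k) x _ _
  have h1 : ∀ j, fderiv ℝ (fun y => (DM F y).adjugate j i) x (ee j) =
      ∑ k ∈ Finset.univ.erase i, ∑ l, H k j l *
        ((A.updateRow i (ee j)).updateRow k (ee l)).det := by
    intro j
    refine fderiv_eq_of_line ((contDiff_adj (contDiff_DM hF) j i).differentiable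
      (by simp)).differentiableAt ?_
    simp only [Matrix.adjugate_apply]
    have hd := det_hasDerivAt (n := n) (A := fun s => (DM F (x + s • ee j)).updateRow i (ee j))
      (A' := fun k l => if k = i then 0 else H k j l) (t := 0) (by
        intro k l
        by_cases hk : k = i
        · subst hk
          simp only [Matrix.updateRow_self, if_true]
          exact hasDerivAt_const _ _
        · simp only [Matrix.updateRow_ne hk, if_neg hk]
          exact line_deriv ((contDiff_DM hF k l).differentiable (by simp)).differentiableAt)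
    convert hd using 1
    simp only [zero_smul, add_zero]
    rw [← Finset.add_sum_erase _ _ (Finset.mem_univ i)]
    have hz : ((A.updateRow i (ee j)).updateRow i fun l => if i = i then (0:ℝ) else H i j l).det = 0 := by
      apply Matrix.det_eq_zero_of_row_eq_zero i
      intro l; simp
    rw [← hA]
    erw [hz, zero_add]
    refine Finset.sum_congr rfl fun k hk => ?_
    have hki : k ≠ i := Finset.ne_of_mem_erase hk
    have e : (fun l => if k = i then (0:ℝ) else H k j l) = ∑ l, H k j l • (ee l : V n) := by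
      funext l
      simp only [if_neg hki, Finset.sum_apply, Pi.smul_apply, Pi.single_apply, smul_eq_mul]
      simp
    let L : V n →ₗ[ℝ] ℝ := (Matrix.detRowAlternating (n := Fin n) (R := ℝ)).toMultilinearMap.toLinearMap
      (A.updateRow i (ee j)) k
    have hL : ∀ r : V n, ((A.updateRow i (ee j)).updateRow k r).det = L r := fun r => rfl
    erw [e, hL, map_sum]
    refine Finset.sum_congr rfl fun l _ => ?_
    rw [map_smul, hL, smul_eq_mul]
  simp only [h1]
  rw [Finset.sum_comm]
  refine Finset.sum_eq_zero fun k hk => ?_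
  have hki : k ≠ i := Finset.ne_of_mem_erase hk
  have hanti : ∀ j l, ((A.updateRow i (ee j)).updateRow k (ee l)).det =
      - ((A.updateRow i (ee l)).updateRow k (ee j)).det := by
    intro j l
    have h := (Matrix.detRowAlternating (n := Fin n) (R := ℝ)).map_swap
      ((A.updateRow i (ee l)).updateRow k (ee j)) hki.symm
    have e : (fun r => ((A.updateRow i (ee l)).updateRow k (ee j)) r) ∘ (Equiv.swap i k) =
        ((A.updateRow i (ee j)).updateRow k (ee l)) := by
      funext r
      by_cases hr : r = i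
      · subst hr
        simp [Matrix.updateRow_ne hki.symm]
      · by_cases hr2 : r = k
        · subst hr2
          simp [Matrix.updateRow_ne hki.symm]
        · simp [Equiv.swap_apply_of_ne_of_ne hr hr2, Matrix.updateRow_ne hr, Matrix.updateRow_ne hr2]
    change Matrix.detRowAlternating ((fun r => ((A.updateRow i (ee l)).updateRow k (ee j)) r) ∘ (Equiv.swap i k)) = _ at h
    rw [e] at h
    exact h
  have h2 : ∑ j, ∑ l, H k j l * ((A.updateRow i (ee j)).updateRow k (ee l)).det =
      - ∑ j, ∑ l, H k j l * ((A.updateRow i (ee j)).updateRow k (ee l)).det := by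
    conv_lhs => rw [Finset.sum_comm]
    rw [← Finset.sum_neg_distrib]
    refine Finset.sum_congr rfl fun j _ => ?_
    rw [← Finset.sum_neg_distrib]
    refine Finset.sum_congr rfl fun l _ => ?_
    rw [hsym k l j, hanti l j]; ring
  linarith

lemma contDiff_adj' {F : V n → V n} (hF : ContDiff ℝ (⊤ : ℕ∞) F) (j i : Fin n) :
    ContDiff ℝ (⊤ : ℕ∞) (fun x => (DM F x).adjugate j i) := contDiff_adj (contDiff_DM hF) j i

lemma integral_fderiv_zero {G : V n → ℝ} (hG : ContDiff ℝ (⊤ : ℕ∞) G) (hc : HasCompactSupport G)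
    (v : V n) : ∫ x, fderiv ℝ G x v = 0 := by
  have h1 : Integrable (fun x => fderiv ℝ G x v) := by
    refine (contDiff_dir hG v).continuous.integrable_of_hasCompactSupport ?_
    exact (hc.fderiv (𝕜 := ℝ)).mono' (by
      intro x hx
      apply subset_tsupport
      intro h
      apply hx
      simp [h])
  have h2 := integral_mul_fderiv_eq_neg_fderiv_mul_of_integrable (μ := (volume : Measure (V n)))
    (f := fun _ => (1:ℝ)) (g := G) (v := v) (by simp) (by simpa using h1)
    (by simpa using hG.continuous.integrable_of_hasCompactSupport hc)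
    (fun x _ => differentiableAt_const _) (fun x _ => (hG.differentiable (by simp)).differentiableAt)
  simpa using h2

/-- Null Lagrangian identity. -/
theorem null_lagrangian {F : V n → V n} (hF : ContDiff ℝ (⊤ : ℕ∞) F) {Θ : V n → ℝ}
    (hΘ : ContDiff ℝ (⊤ : ℕ∞) Θ) (hc : HasCompactSupport Θ) {ψ : V n → ℝ}
    (hψ : ContDiff ℝ (⊤ : ℕ∞) ψ) (i : Fin n) :
    ∫ x, Θ x * fderiv ℝ ψ (F x) (ee i) * (DM F x).det =
      - ∫ x, ψ (F x) * ∑ j, (DM F x).adjugate j i * fderiv ℝ Θ x (ee j) := by
  set X : Fin n → V n → ℝ := fun j x => Θ x * ψ (F x) * (DM F x).adjugate j i with hX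
  have hψF : ContDiff ℝ (⊤ : ℕ∞) (fun x => ψ (F x)) := hψ.comp hF
  have hXs : ∀ j, ContDiff ℝ (⊤ : ℕ∞) (X j) := fun j => (hΘ.mul hψF).mul (contDiff_adj' hF j i)
  have hXc : ∀ j, HasCompactSupport (X j) := fun j => by
    refine hc.mono' ?_
    intro x hx
    apply subset_tsupport
    intro h
    apply hx
    simp [hX, h]
  have h0 : ∫ x, ∑ j, fderiv ℝ (X j) x (ee j) = 0 := by
    rw [integral_finset_sum]
    · exact Finset.sum_eq_zero fun j _ => integral_fderiv_zero (hXs j) (hXc j) _
    · intro j _
      refine (contDiff_dir (hXs j) (ee j)).continuous.integrable_of_hasCompactSupport ?_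
      exact ((hXc j).fderiv (𝕜 := ℝ)).mono' (by
        intro x hx
        apply subset_tsupport
        intro h
        apply hx
        simp [h])
  have hpt : ∀ x, ∑ j, fderiv ℝ (X j) x (ee j) =
      ψ (F x) * ∑ j, (DM F x).adjugate j i * fderiv ℝ Θ x (ee j) +
      Θ x * fderiv ℝ ψ (F x) (ee i) * (DM F x).det := by
    intro x
    have hΘd : DifferentiableAt ℝ Θ x := (hΘ.differentiable (by simp)).differentiableAt
    have hFd : DifferentiableAt ℝ F x := (hF.differentiable (by simp)).differentiableAt
    have hψd : DifferentiableAt ℝ ψ (F x) := (hψ.differentiable (by simp)).differentiableAt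
    have hψFd : DifferentiableAt ℝ (fun x => ψ (F x)) x :=
      (hψF.differentiable (by simp)).differentiableAt
    have had : ∀ j, DifferentiableAt ℝ (fun x => (DM F x).adjugate j i) x := fun j =>
      ((contDiff_adj' hF j i).differentiable (by simp)).differentiableAt
    have e1 : ∀ j, fderiv ℝ (X j) x (ee j) =
        fderiv ℝ Θ x (ee j) * ψ (F x) * (DM F x).adjugate j i +
        Θ x * fderiv ℝ (fun x => ψ (F x)) x (ee j) * (DM F x).adjugate j i +
        Θ x * ψ (F x) * fderiv ℝ (fun x => (DM F x).adjugate j i) x (ee j) := by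
      intro j
      have h := ((hΘd.hasFDerivAt.mul hψFd.hasFDerivAt).mul (had j).hasFDerivAt).fderiv
      have h' : fderiv ℝ (X j) x = _ := h
      rw [h']
      simp only [ContinuousLinearMap.add_apply, ContinuousLinearMap.smul_apply, smul_eq_mul]
      simp only [Pi.mul_apply]
      ring
    have e2 : ∀ j, fderiv ℝ (fun x => ψ (F x)) x (ee j) =
        ∑ k, fderiv ℝ ψ (F x) (ee k) * DM F x k j := by
      intro j
      rw [fderiv_comp' x hψd hFd]
      simp only [ContinuousLinearMap.comp_apply]
      have e3 : fderiv ℝ F x (ee j) = ∑ k, (DM F x k j) • (ee k : V n) := by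
        funext k
        simp only [Finset.sum_apply, Pi.smul_apply, Pi.single_apply, smul_eq_mul]
        simp only [DM, Matrix.of_apply]
        have hk : fderiv ℝ (fun y => F y k) x (ee j) = fderiv ℝ F x (ee j) k := by
          have h := (hasFDerivAt_pi'.1 hFd.hasFDerivAt k).fderiv
          rw [h]; rfl
        simp [hk]
      rw [e3, map_sum]
      refine Finset.sum_congr rfl fun k _ => ?_
      rw [map_smul, smul_eq_mul, mul_comm]
    have e4 : ∑ j, fderiv ℝ (fun x => ψ (F x)) x (ee j) * (DM F x).adjugate j i =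
        fderiv ℝ ψ (F x) (ee i) * (DM F x).det := by
      simp only [e2, Finset.sum_mul]
      rw [Finset.sum_comm]
      have : ∀ k, ∑ j, fderiv ℝ ψ (F x) (ee k) * DM F x k j * (DM F x).adjugate j i =
          fderiv ℝ ψ (F x) (ee k) * ((DM F x) * (DM F x).adjugate) k i := by
        intro k
        rw [Matrix.mul_apply, Finset.mul_sum]
        refine Finset.sum_congr rfl fun j _ => by ring
      simp only [this, Matrix.mul_adjugate]
      simp [Matrix.smul_apply, Matrix.one_apply]
    simp only [e1, Finset.sum_add_distrib]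
    have e5 := piola hF i x
    have e6 : ∑ j, Θ x * ψ (F x) * fderiv ℝ (fun x => (DM F x).adjugate j i) x (ee j) = 0 := by
      rw [← Finset.mul_sum, e5, mul_zero]
    rw [e6, add_zero]
    have e7 : ∑ j, Θ x * fderiv ℝ (fun x => ψ (F x)) x (ee j) * (DM F x).adjugate j i =
        Θ x * (fderiv ℝ ψ (F x) (ee i) * (DM F x).det) := by
      rw [← e4, Finset.mul_sum]
      refine Finset.sum_congr rfl fun j _ => by ring
    rw [e7, Finset.mul_sum]
    congr 1
    · refine Finset.sum_congr rfl fun j _ => by ring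
    · ring
  simp only [hpt] at h0
  rw [integral_add] at h0
  · linarith
  · refine Continuous.integrable_of_hasCompactSupport ?_ ?_
    · refine hψF.continuous.mul (continuous_finset_sum _ fun j _ => ?_)
      exact (contDiff_adj' hF j i).continuous.mul (contDiff_dir hΘ _).continuous
    · refine (hc.fderiv (𝕜 := ℝ)).mono' ?_
      intro x hx
      apply subset_tsupport
      intro h
      apply hx
      simp [h]
  · refine Continuous.integrable_of_hasCompactSupport ?_ ?_
    · exact (hΘ.continuous.mul ((contDiff_dir hψ (ee i)).continuous.comp hF.continuous)).mul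
        (contDiff_det (contDiff_DM hF)).continuous
    · refine hc.mono' ?_
      intro x hx
      apply subset_tsupport
      intro h
      apply hx
      simp [h]

end

end Pool.Agent.H721KI
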