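import Mathlib
import Pool.Agent.H721KI.Piola

/-!
# Counting function of a smooth map
-/

set_option autoImplicit false
set_option linter.all false

open MeasureTheory Set Filter Topology Metric
open scoped ENNReal NNReal

namespace Pool.Agent.H721KI

noncomputable section

variable {n : ℕ}

/-- extended natural number valued -/
def IsENat (a : ℝ≥0∞) : Prop := a = ⊤ ∨ ∃ m : ℕ, a = m

lemma isENat_tsum_indicator {S : ℕ → Set (V n)} (y : V n) :
    IsENat (∑' k, (S k).indicator (fun _ => (1 : ℝ≥0∞)) y) := by
  classical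
  by_cases h : (∑' k, (S k).indicator (fun _ => (1 : ℝ≥0∞)) y) = ⊤
  · exact Or.inl h
  right
  have hf : {k | (1 : ℝ≥0∞) ≤ (S k).indicator (fun _ => (1 : ℝ≥0∞)) y}.Finite :=
    ENNReal.finite_const_le_of_tsum_ne_top h one_ne_zero
  refine ⟨hf.toFinset.card, ?_⟩
  rw [tsum_eq_sum (s := hf.toFinset)]
  · rw [Finset.sum_congr rfl (g := fun _ => (1 : ℝ≥0∞))]
    · simp
    · intro k hk
      simp only [Set.Finite.mem_toFinset, Set.mem_setOf_eq] at hk
      by_cases hy : y ∈ S k
      · simp [hy]
      · simp [hy] at hk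
  · intro k hk
    simp only [Set.Finite.mem_toFinset, Set.mem_setOf_eq, not_le] at hk
    by_cases hy : y ∈ S k
    · simp [hy] at hk
    · simp [hy]

lemma area_count {F : V n → V n} (hF : ContDiff ℝ 1 F) {S : Set (V n)} (hS : MeasurableSet S)
    (hdet : ∀ x ∈ S, (fderiv ℝ F x).det ≠ 0) :
    ∃ N : V n → ℝ≥0∞, Measurable N ∧ (∀ y, IsENat (N y)) ∧ (∀ y ∉ F '' S, N y = 0) ∧
      ∀ g : V n → ℝ≥0∞, Measurable g →
        ∫⁻ x in S, ENNReal.ofReal |(fderiv ℝ F x).det| * g (F x) = ∫⁻ y, N y * g y := by
  classical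
  have hFd : ∀ x, HasFDerivAt F (fderiv ℝ F x) x := fun x =>
    (hF.differentiable (by simp) x).hasFDerivAt
  let r : (V n →L[ℝ] V n) → ℝ≥0 := fun A =>
    if h : A.det ≠ 0 then ‖((A.toContinuousLinearEquivOfDetNeZero h).symm : V n →L[ℝ] V n)‖₊⁻¹ / 2 + 
      (if ‖((A.toContinuousLinearEquivOfDetNeZero h).symm : V n →L[ℝ] V n)‖₊ = 0 then 1 else 0) else 1
  have rpos : ∀ A, r A ≠ 0 := by
    intro A
    simp only [r]
    split_ifs with h h2
    · positivity
    · positivity
    · exact one_ne_zero
  obtain ⟨t, A, hdisj, htm, hcov, happ, hex⟩ :=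
    exists_partition_approximatesLinearOn_of_hasFDerivWithinAt F S (fun x => fderiv ℝ F x)
      (fun x _ => (hFd x).hasFDerivWithinAt) r rpos
  have hinj : ∀ k, InjOn F (S ∩ t k) := by
    intro k
    by_cases hne : S.Nonempty
    · obtain ⟨y, hy, hAy⟩ := hex hne k
      have hd : (A k).det ≠ 0 := by rw [hAy]; exact hdet y hy
      have h1 : ApproximatesLinearOn F
        (((A k).toContinuousLinearEquivOfDetNeZero hd : V n ≃L[ℝ] V n) : V n →L[ℝ] V n)
        (S ∩ t k) (r (A k)) := by
        simpa using happ k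
      refine h1.injOn ?_
      by_cases hz : ‖(((A k).toContinuousLinearEquivOfDetNeZero hd).symm : V n →L[ℝ] V n)‖₊ = 0
      · left
        refine ⟨fun a b => ?_⟩
        have h0 : (((A k).toContinuousLinearEquivOfDetNeZero hd).symm : V n →L[ℝ] V n) = 0 := by
          simpa using hz
        have : ∀ c : V n, c = 0 := by
          intro c
          have h3 := congrArg (fun L : V n →L[ℝ] V n => L ((A k).toContinuousLinearEquivOfDetNeZero hd c)) h0
          have h4 := ((A k).toContinuousLinearEquivOfDetNeZero hd).symm_apply_apply c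
          rw [← h4]
          exact h3
        rw [this a, this b]
      · right
        simp only [r, dif_pos hd, if_neg hz, add_zero]
        exact NNReal.half_lt_self (by simpa using hz)
    · rw [Set.not_nonempty_iff_eq_empty] at hne
      simp [hne]
  set S' : ℕ → Set (V n) := fun k => S ∩ t k with hS'
  have hSm : ∀ k, MeasurableSet (S' k) := fun k => hS.inter (htm k)
  have him : ∀ k, MeasurableSet (F '' (S' k)) := fun k =>
    measurable_image_of_fderivWithin (hSm k) (fun x _ => (hFd x).hasFDerivWithinAt) (hinj k)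
  refine ⟨fun y => ∑' k, (F '' (S' k)).indicator (fun _ => (1 : ℝ≥0∞)) y, ?_, ?_, ?_, ?_⟩
  · exact Measurable.ennreal_tsum fun k => measurable_const.indicator (him k)
  · intro y; exact isENat_tsum_indicator y
  · intro y hy
    rw [ENNReal.tsum_eq_zero]
    intro k
    rw [Set.indicator_of_notMem]
    intro h
    apply hy
    obtain ⟨x, hx, rfl⟩ := h
    exact ⟨x, hx.1, rfl⟩
  · intro g hg
    have hU : S = ⋃ k, S' k := by
      ext x; constructor
      · intro hx
        obtain ⟨k, hk⟩ := mem_iUnion.1 (hcov hx)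
        exact mem_iUnion.2 ⟨k, hx, hk⟩
      · intro hx
        obtain ⟨k, hk⟩ := mem_iUnion.1 hx
        exact hk.1
    rw [hU, lintegral_iUnion hSm]
    · have h1 : ∀ y, (∑' k, (F '' (S' k)).indicator (fun _ => (1 : ℝ≥0∞)) y) * g y =
          ∑' k, (F '' (S' k)).indicator g y := by
        intro y
        rw [← ENNReal.tsum_mul_right]
        refine tsum_congr fun k => ?_
        by_cases hy : y ∈ F '' (S' k)
        · simp [hy]
        · simp [hy]
      simp only [h1]
      rw [lintegral_tsum (fun k => (hg.indicator (him k)).aemeasurable)]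
      refine tsum_congr fun k => ?_
      rw [lintegral_indicator (him k)]
      exact (lintegral_image_eq_lintegral_abs_det_fderiv_mul volume (hSm k)
        (fun x _ => (hFd x).hasFDerivWithinAt) (hinj k) g).symm
    · intro i j hij
      exact (hdisj hij).mono inter_subset_right inter_subset_right

/-- Pushforward of `|det| dx` has an integer valued density. -/
lemma area_measure {F : V n → V n} (hF : ContDiff ℝ 1 F) {S : Set (V n)} (hS : MeasurableSet S)
    (hdet : ∀ x ∈ S, (fderiv ℝ F x).det ≠ 0) :
    ∃ N : V n → ℝ≥0∞, Measurable N ∧ (∀ y, IsENat (N y)) ∧ (∀ y ∉ F '' S, N y = 0) ∧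
      Measure.map F ((volume.restrict S).withDensity
        (fun x => ENNReal.ofReal |(fderiv ℝ F x).det|)) = volume.withDensity N := by
  obtain ⟨N, hN, hi, h0, hg⟩ := area_count hF hS hdet
  refine ⟨N, hN, hi, h0, ?_⟩
  have hFm : Measurable F := hF.continuous.measurable
  have hdm : Measurable (fun x => ENNReal.ofReal |(fderiv ℝ F x).det|) := by
    have : Continuous (fun x => (fderiv ℝ F x).det) :=
      ContinuousLinearMap.continuous_det.comp (hF.continuous_fderiv (by simp))
    exact this.abs.measurable.ennreal_ofReal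
  ext B hB
  rw [Measure.map_apply hFm hB, withDensity_apply _ (hFm hB), withDensity_apply _ hB]
  have := hg (B.indicator (fun _ => 1)) (measurable_const.indicator hB)
  rw [← lintegral_indicator hB]
  have e1 : (fun y => N y * B.indicator (fun _ => (1:ℝ≥0∞)) y) = fun y => B.indicator N y := by
    funext y; by_cases hy : y ∈ B <;> simp [hy]
  rw [e1] at this
  rw [← this, ← lintegral_indicator (hFm hB)]
  congr 1
  funext x
  by_cases hx : F x ∈ B
  · have : x ∈ F ⁻¹' B := hx
    simp [hx, this]
  · have : x ∉ F ⁻¹' B := hx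
    simp [hx, this]

end

end Pool.Agent.H721KI
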