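import Mathlib
import Pool.Agent.H721KI.Piola

/-!
# Mollification
-/

set_option autoImplicit false
set_option linter.all false

open MeasureTheory Set Filter Topology Metric
open scoped ENNReal NNReal Convolution

namespace Pool.Agent.H721KI

noncomputable section

variable {n : ℕ}

/-- bump functions shrinking to the origin -/
def mol (n k : ℕ) : ContDiffBump (0 : V n) where
  rIn := 1 / (k + 1)
  rOut := 2 / (k + 1)
  rIn_pos := by positivity
  rIn_lt_rOut := by
    have : (0 : ℝ) < k + 1 := by positivity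
    gcongr; norm_num

/-- mollification kernel -/
def rho (k : ℕ) : V n → ℝ := (mol n k).normed volume

/-- mollification -/
def cv (k : ℕ) (w : V n → ℝ) : V n → ℝ :=
  (rho k : V n → ℝ) ⋆[ContinuousLinearMap.lsmul ℝ ℝ, volume] w

lemma rho_nonneg (k : ℕ) (x : V n) : 0 ≤ rho k x := (mol n k).nonneg_normed x

lemma rho_smooth (k : ℕ) : ContDiff ℝ (⊤ : ℕ∞) (rho k : V n → ℝ) := (mol n k).contDiff_normed

lemma rho_cont (k : ℕ) : Continuous (rho k : V n → ℝ) := (mol n k).continuous_normed

lemma rho_cs (k : ℕ) : HasCompactSupport (rho k : V n → ℝ) := (mol n k).hasCompactSupport_normed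

lemma rho_int (k : ℕ) : ∫ x, (rho k : V n → ℝ) x = 1 := (mol n k).integral_normed

lemma rho_integrable (k : ℕ) : Integrable (rho k : V n → ℝ) := (mol n k).integrable_normed

lemma rho_even (k : ℕ) (x : V n) : rho k (-x) = rho k x := (mol n k).normed_neg x

lemma rho_zero {k : ℕ} {x : V n} (h : 2 / ((k : ℝ) + 1) ≤ ‖x‖) : rho k x = 0 := by
  by_contra hx
  have : x ∈ Function.support ((mol n k).normed (volume : Measure (V n))) := hx
  rw [(mol n k).support_normed_eq] at this
  rw [mem_ball_zero_iff] at this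
  exact absurd this (not_lt.2 h)

lemma cv_apply (k : ℕ) (w : V n → ℝ) (x : V n) : cv k w x = ∫ t, rho k t * w (x - t) := rfl

lemma cv_apply' (k : ℕ) (w : V n → ℝ) (x : V n) : cv k w x = ∫ y, rho k (x - y) * w y := by
  unfold cv
  rw [convolution_eq_swap]
  rfl

lemma cv_smooth (k : ℕ) {w : V n → ℝ} (hw : LocallyIntegrable w) :
    ContDiff ℝ (⊤ : ℕ∞) (cv k w) :=
  (rho_cs k).contDiff_convolution_left _ (rho_smooth k) hw

lemma cv_exists (k : ℕ) {w : V n → ℝ} (hw : LocallyIntegrable w) (x : V n) :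
    Integrable (fun t => rho k t * w (x - t)) :=
  ((rho_cs k).convolutionExists_left (ContinuousLinearMap.lsmul ℝ ℝ) (rho_cont k) hw x)

lemma cv_exists' (k : ℕ) {w : V n → ℝ} (hw : LocallyIntegrable w) (x : V n) :
    Integrable (fun y => rho k (x - y) * w y) := by
  have := (cv_exists k hw x).comp_sub_left x
  simpa using this

lemma cv_ae_tendsto {w : V n → ℝ} (hw : LocallyIntegrable w) :
    ∀ᵐ x, Tendsto (fun k => cv k w x) atTop (𝓝 (w x)) := by
  have h := ContDiffBump.ae_convolution_tendsto_right_of_locallyIntegrable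
    (μ := (volume : Measure (V n))) (φ := fun k => mol n k) (l := atTop) (K := 2) (g := w) ?_ ?_ hw
  · exact h
  · have : Tendsto (fun k : ℕ => 2 * (1 / ((k : ℝ) + 1))) atTop (𝓝 (2 * 0)) :=
      tendsto_one_div_add_atTop_nhds_zero_nat.const_mul 2
    simpa [mol, div_eq_mul_inv] using this
  · refine Eventually.of_forall fun k => ?_
    simp [mol]
    ring_nf; rfl

lemma cv_fderiv_left (k : ℕ) {w : V n → ℝ} (hw : LocallyIntegrable w) (x v : V n) :
    fderiv ℝ (cv k w) x v = ∫ y, fderiv ℝ (rho k) (x - y) v * w y := by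
  have h := (rho_cs (n := n) k).hasFDerivAt_convolution_left (ContinuousLinearMap.lsmul ℝ ℝ)
    ((rho_smooth k).of_le (by exact_mod_cast le_top)) hw x
  unfold cv
  rw [h.fderiv, convolution_eq_swap]
  have hi : Integrable (fun t => (((ContinuousLinearMap.lsmul ℝ ℝ).precompL (V n))
      (fderiv ℝ (rho k : V n → ℝ) (x - t))) (w t)) := by
    have := (((rho_cs (n := n) k).fderiv (𝕜 := ℝ)).convolutionExists_left
      ((ContinuousLinearMap.lsmul ℝ ℝ : ℝ →L[ℝ] ℝ →L[ℝ] ℝ).precompL (V n))
      ((rho_smooth k).continuous_fderiv (by simp)) hw x)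
    have h2 := this.integrable.comp_sub_left x
    simpa using h2
  rw [ContinuousLinearMap.integral_apply hi]
  congr 1

lemma cv_fderiv_right (k : ℕ) {χ : V n → ℝ} (hχ : ContDiff ℝ (⊤ : ℕ∞) χ) (hc : HasCompactSupport χ)
    (x v : V n) :
    fderiv ℝ (cv k χ) x v = cv k (fun y => fderiv ℝ χ y v) x := by
  have h := hc.hasFDerivAt_convolution_right (ContinuousLinearMap.lsmul ℝ ℝ)
    ((rho_integrable (n := n) k).locallyIntegrable) (hχ.of_le (by exact_mod_cast le_top)) x
  unfold cv
  rw [h.fderiv]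
  rw [convolution_def, convolution_def]
  have hi : Integrable (fun t => (((ContinuousLinearMap.lsmul ℝ ℝ).precompR (V n))
      (rho k t : ℝ)) (fderiv ℝ χ (x - t))) := by
    exact ((hc.fderiv (𝕜 := ℝ)).convolutionExists_right
      ((ContinuousLinearMap.lsmul ℝ ℝ : ℝ →L[ℝ] ℝ →L[ℝ] ℝ).precompR (V n))
      ((rho_integrable (n := n) k).locallyIntegrable) (hχ.continuous_fderiv (by simp)) x)
  rw [ContinuousLinearMap.integral_apply hi]
  congr 1

lemma cv_abs_le (k : ℕ) {w : V n → ℝ} {C : ℝ} (hC : ∀ y, |w y| ≤ C) (x : V n) :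
    |cv k w x| ≤ C := by
  rw [cv_apply]
  have h1 : ‖∫ t, rho k t * w (x - t)‖ ≤ ∫ t : V n, rho k t * C := by
    refine norm_integral_le_of_norm_le ((rho_integrable k).mul_const C) (Eventually.of_forall ?_)
    intro t
    rw [norm_mul, Real.norm_eq_abs, Real.norm_eq_abs, abs_of_nonneg (rho_nonneg k t)]
    exact mul_le_mul_of_nonneg_left (hC _) (rho_nonneg k t)
  rw [integral_mul_const, rho_int, one_mul] at h1
  exact h1

lemma cv_cs (k : ℕ) {w : V n → ℝ} (hc : HasCompactSupport w) : HasCompactSupport (cv k w) :=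
  (rho_cs k).convolution _ hc

lemma cv_integrable (k : ℕ) {w : V n → ℝ} (hw : Integrable w) : Integrable (cv k w) :=
  (rho_integrable k).integrable_convolution _ hw

lemma cv_integral (k : ℕ) {w : V n → ℝ} (hw : Integrable w) : ∫ x, cv k w x = ∫ x, w x := by
  have := integral_convolution (μ := (volume : Measure (V n))) (ν := (volume : Measure (V n)))
    (ContinuousLinearMap.lsmul ℝ ℝ) (rho_integrable (n := n) k) hw
  unfold cv
  rw [this, rho_int]
  simp

lemma cv_nonneg (k : ℕ) {w : V n → ℝ} (hw : ∀ x, 0 ≤ w x) (x : V n) : 0 ≤ cv k w x := by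
  rw [cv_apply]
  exact integral_nonneg fun t => mul_nonneg (rho_nonneg k t) (hw _)

/-- moving the mollifier to the other factor -/
lemma cv_fubini (k : ℕ) {w h : V n → ℝ} (hw : Integrable w) (hh : Continuous h)
    {C : ℝ} (hC : ∀ y, |h y| ≤ C) :
    ∫ y, cv k w y * h y = ∫ z, w z * cv k h z := by
  have hI : Integrable (fun p : V n × V n => (rho k p.2 * w (p.1 - p.2)) * h p.1)
      (volume.prod volume) := by
    have h1 := (rho_integrable (n := n) k).convolution_integrand (ContinuousLinearMap.lsmul ℝ ℝ) hw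
    have h2 : Integrable (fun p : V n × V n => rho k p.2 * w (p.1 - p.2)) (volume.prod volume) := h1
    refine h2.mul_bdd (c := C) ?_ ?_
    · exact (hh.comp continuous_fst).aestronglyMeasurable
    · exact Eventually.of_forall fun p => hC _
  calc ∫ y, cv k w y * h y = ∫ y, ∫ t, (rho k t * w (y - t)) * h y := by
        congr 1; funext y
        rw [cv_apply, integral_mul_const]
    _ = ∫ t, ∫ y, (rho k t * w (y - t)) * h y := by
        exact integral_integral_swap hI
    _ = ∫ t, ∫ z, (rho k t * w z) * h (z + t) := by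
        congr 1; funext t
        rw [← integral_add_right_eq_self _ t]
        simp
    _ = ∫ t, ∫ z, (rho k t * w z) * h (z - t) := by
        rw [← integral_neg_eq_self]
        simp [rho_even, sub_eq_add_neg]
    _ = ∫ z, ∫ t, (rho k t * w z) * h (z - t) := by
        refine integral_integral_swap ?_
        have h3 : Integrable (fun p : V n × V n => rho k p.1 * w p.2) (volume.prod volume) :=
          (rho_integrable k).mul_prod hw
        refine h3.mul_bdd (c := C) ?_ ?_
        · exact (hh.comp (continuous_snd.sub continuous_fst)).aestronglyMeasurable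
        · exact Eventually.of_forall fun p => hC _
    _ = ∫ z, w z * cv k h z := by
        congr 1; funext z
        rw [cv_apply, ← integral_const_mul]
        congr 1; funext t; ring

/-- generalised dominated convergence -/
lemma pratt {α : Type*} [MeasurableSpace α] {μ : Measure α} {a : ℕ → α → ℝ} {A : α → ℝ}
    {b : ℕ → α → ℝ} {B : α → ℝ} (ham : ∀ k, AEStronglyMeasurable (a k) μ)
    (ha : ∀ᵐ x ∂μ, Tendsto (fun k => a k x) atTop (𝓝 (A x)))
    (hab : ∀ k, ∀ᵐ x ∂μ, |a k x| ≤ b k x)
    (hb : ∀ᵐ x ∂μ, Tendsto (fun k => b k x) atTop (𝓝 (B x)))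
    (hbi : ∀ k, Integrable (b k) μ) (hBi : Integrable B μ)
    (hlim : Tendsto (fun k => ∫ x, b k x ∂μ) atTop (𝓝 (∫ x, B x ∂μ))) :
    Integrable A μ ∧ Tendsto (fun k => ∫ x, |a k x - A x| ∂μ) atTop (𝓝 0) := by
  have hAm : AEStronglyMeasurable A μ := aestronglyMeasurable_of_tendsto_ae atTop ham ha
  have hab' : ∀ᵐ x ∂μ, ∀ k, |a k x| ≤ b k x := ae_all_iff.2 hab
  have hAB : ∀ᵐ x ∂μ, |A x| ≤ B x := by
    filter_upwards [ha, hab', hb] with x h1 h2 h3
    exact le_of_tendsto_of_tendsto' h1.abs h3 h2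
  have hAi : Integrable A μ := hBi.mono' hAm (by filter_upwards [hAB] with x hx using hx)
  refine ⟨hAi, ?_⟩
  have hai : ∀ k, Integrable (a k) μ := fun k => (hbi k).mono' (ham k) (hab k)
  set f : ℕ → α → ℝ≥0∞ := fun k x => ENNReal.ofReal (b k x + B x - |a k x - A x|) with hf
  have hfm : ∀ k, AEMeasurable (f k) μ := fun k =>
    ((((hbi k).1.aemeasurable.add hBi.1.aemeasurable).sub
      ((hai k).1.aemeasurable.sub hAm.aemeasurable).abs)).ennreal_ofReal
  have hfat := lintegral_liminf_le' (μ := μ) (f := f) (u := atTop) hfm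
  have hlimf : ∀ᵐ x ∂μ, liminf (fun k => f k x) atTop = ENNReal.ofReal (2 * B x) := by
    filter_upwards [ha, hb] with x h1 h2
    have : Tendsto (fun k => f k x) atTop (𝓝 (ENNReal.ofReal (2 * B x))) := by
      refine ENNReal.tendsto_ofReal ?_
      have h4 : Tendsto (fun k => b k x + B x - |a k x - A x|) atTop (𝓝 (B x + B x - |A x - A x|)) :=
        (h2.add_const _).sub ((h1.sub_const _).abs)
      simpa [two_mul] using h4
    exact this.liminf_eq
  rw [lintegral_congr_ae hlimf] at hfat
  have hnn : ∀ k, ∀ᵐ x ∂μ, 0 ≤ b k x + B x - |a k x - A x| := by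
    intro k
    filter_upwards [hab k, hAB] with x h1 h2
    have := abs_sub (a k x) (A x)
    linarith
  have hint : ∀ k, ∫⁻ x, f k x ∂μ = ENNReal.ofReal (∫ x, b k x ∂μ + ∫ x, B x ∂μ - ∫ x, |a k x - A x| ∂μ) := by
    intro k
    have h1 : Integrable (fun x => b k x + B x - |a k x - A x|) μ :=
      ((hbi k).add hBi).sub ((hai k).sub hAi).abs
    rw [← ofReal_integral_eq_lintegral_ofReal h1 (hnn k)]
    congr 1
    have i1 : Integrable (fun x => b k x + B x) μ := (hbi k).add hBi
    have i2 : Integrable (fun x => |a k x - A x|) μ := ((hai k).sub hAi).abs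
    rw [integral_sub i1 i2, integral_add (hbi k) hBi]
  have hB0 : ∀ᵐ x ∂μ, 0 ≤ 2 * B x := by
    filter_upwards [hAB] with x hx
    have := abs_nonneg (A x); linarith
  rw [← ofReal_integral_eq_lintegral_ofReal (hBi.const_mul 2) hB0, integral_const_mul] at hfat
  simp only [hint] at hfat
  -- conclude
  rw [Metric.tendsto_atTop]
  intro ε hε
  by_contra hcon
  push Not at hcon
  -- frequently ∫|a-A| ≥ ε
  have hfreq : ∃ᶠ k in atTop, ε ≤ ∫ x, |a k x - A x| ∂μ := by
    rw [Filter.frequently_atTop]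
    intro N
    obtain ⟨k, hk, h⟩ := hcon N
    refine ⟨k, hk, ?_⟩
    rw [Real.dist_eq, sub_zero, abs_of_nonneg (integral_nonneg fun x => abs_nonneg _)] at h
    exact h
  have hev : ∀ᶠ k in atTop, ∫ x, b k x ∂μ < ∫ x, B x ∂μ + ε / 2 :=
    hlim.eventually_lt_const (by linarith)
  have hB0' : 0 ≤ ∫ x, B x ∂μ := by
    have := integral_nonneg_of_ae hB0
    rw [integral_const_mul] at this; linarith
  have hle : liminf (fun k => ENNReal.ofReal (∫ x, b k x ∂μ + ∫ x, B x ∂μ - ∫ x, |a k x - A x| ∂μ)) atTop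
      ≤ ENNReal.ofReal (2 * ∫ x, B x ∂μ - ε / 2) := by
    refine liminf_le_of_frequently_le' ?_
    refine (hfreq.and_eventually hev).mono fun k hk => ?_
    refine ENNReal.ofReal_le_ofReal ?_
    linarith [hk.1, hk.2]
  have hfin := hfat.trans hle
  by_cases hz : 2 * ∫ x, B x ∂μ - ε / 2 ≤ 0
  · -- then ∫ B small: direct
    rw [ENNReal.ofReal_of_nonpos hz] at hfin
    have hBz : ∫ x, B x ∂μ = 0 := by
      have h0 : 2 * ∫ x, B x ∂μ ≤ 0 := by
        have := le_antisymm hfin zero_le
        rwa [ENNReal.ofReal_eq_zero] at this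
      linarith
    obtain ⟨k, hk1, hk2⟩ := (hfreq.and_eventually (hlim.eventually_lt_const (u := ε / 2)
      (by rw [hBz]; linarith))).exists
    have : ∫ x, |a k x - A x| ∂μ ≤ ∫ x, b k x ∂μ + ∫ x, B x ∂μ := by
      rw [← integral_add (hbi k) hBi]
      refine integral_mono_ae ((hai k).sub hAi).abs ((hbi k).add hBi) ?_
      filter_upwards [hnn k] with x hx
      linarith
    rw [hBz] at this
    linarith
  · push Not at hz
    rw [ENNReal.ofReal_le_ofReal_iff hz.le] at hfin
    linarith

lemma cv_L1_nonneg {w : V n → ℝ} (hw : Integrable w) (h0 : ∀ x, 0 ≤ w x) :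
    Tendsto (fun k => ∫ x, |cv k w x - w x|) atTop (𝓝 0) := by
  refine (pratt (a := fun k => cv k w) (A := w) (b := fun k => cv k w) (B := w)
    (fun k => (cv_integrable k hw).1) (cv_ae_tendsto hw.locallyIntegrable)
    (fun k => Eventually.of_forall fun x => (abs_of_nonneg (cv_nonneg k h0 x)).le)
    (cv_ae_tendsto hw.locallyIntegrable) (fun k => cv_integrable k hw) hw ?_).2
  simp only [cv_integral _ hw]
  exact tendsto_const_nhds

lemma cv_jensen (k : ℕ) {w : V n → ℝ} {p : ℝ} (hp : 1 ≤ p) (hw : LocallyIntegrable w)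
    (hwp : LocallyIntegrable (fun x => |w x| ^ p)) (x : V n) :
    |cv k w x| ^ p ≤ cv k (fun y => |w y| ^ p) x := by
  set ν : Measure (V n) := volume.withDensity (fun t => ENNReal.ofReal (rho k t)) with hν
  have hm : Measurable (fun t : V n => ENNReal.ofReal (rho k t)) :=
    (rho_cont k).measurable.ennreal_ofReal
  have hprob : IsProbabilityMeasure ν := by
    constructor
    rw [hν, withDensity_apply _ MeasurableSet.univ, Measure.restrict_univ,
      ← ofReal_integral_eq_lintegral_ofReal (rho_integrable k) (Eventually.of_forall (rho_nonneg k)),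
      rho_int]
    simp
  have hconv : ∀ g : V n → ℝ, cv k g x = ∫ t, g (x - t) ∂ν := by
    intro g
    rw [hν, integral_withDensity_eq_integral_toReal_smul hm (by simp), cv_apply]
    congr 1; funext t
    rw [ENNReal.toReal_ofReal (rho_nonneg k t), smul_eq_mul]
  have hint : ∀ g : V n → ℝ, LocallyIntegrable g → Integrable (fun t => g (x - t)) ν := by
    intro g hg
    rw [hν, integrable_withDensity_iff_integrable_smul' hm (by simp)]
    refine (cv_exists k hg x).congr (Eventually.of_forall fun t => ?_)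
    simp only [smul_eq_mul]
    rw [ENNReal.toReal_ofReal (rho_nonneg k t)]
  have hconvex : ConvexOn ℝ (Set.Ici (0:ℝ)) (fun s : ℝ => s ^ p) := convexOn_rpow hp
  have h1 : |∫ t, w (x - t) ∂ν| ≤ ∫ t, |w (x - t)| ∂ν := abs_integral_le_integral_abs
  have h2 : (∫ t, |w (x - t)| ∂ν) ^ p ≤ ∫ t, |w (x - t)| ^ p ∂ν := by
    have hi1 : Integrable (fun t => |w (x - t)|) ν := (hint w hw).abs
    have hi2 : Integrable ((fun s : ℝ => s ^ p) ∘ fun t => |w (x - t)|) ν :=
      hint (fun y => |w y| ^ p) hwp
    exact hconvex.map_integral_le (μ := ν) (f := fun t => |w (x - t)|)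
      (Real.continuous_rpow_const (by linarith)).continuousOn isClosed_Ici
      (Eventually.of_forall fun t => Set.mem_Ici.2 (abs_nonneg _)) hi1 hi2
  rw [hconv w, hconv (fun y => |w y| ^ p)]
  exact (Real.rpow_le_rpow (abs_nonneg _) h1 (by linarith)).trans h2

end

end Pool.Agent.H721KI
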