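import Mathlib
import Pool.Agent.H721KI.Moll

/-!
# Isoperimetric inequality for integer valued functions of bounded variation
-/

set_option autoImplicit false
set_option linter.all false

open MeasureTheory Set Filter Topology Metric
open scoped ENNReal NNReal Convolution

namespace Pool.Agent.H721KI

noncomputable section

variable {n : ℕ}

lemma cs_of_zero {f g : V n → ℝ} (hf : HasCompactSupport f) (h : ∀ x, f x = 0 → g x = 0) :
    HasCompactSupport g := by
  refine hf.mono' ?_
  intro x hx
  apply subset_tsupport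
  intro h0
  exact hx (h x h0)

lemma cs_dir {f : V n → ℝ} (hf : HasCompactSupport f) (v : V n) :
    HasCompactSupport (fun x => fderiv ℝ f x v) := by
  refine (hf.fderiv (𝕜 := ℝ)).mono' ?_
  intro x hx
  apply subset_tsupport
  intro h
  apply hx
  simp [h]

lemma opNorm_le_sum (L : V n →L[ℝ] ℝ) : ‖L‖ ≤ ∑ i, |L (ee i)| := by
  refine L.opNorm_le_bound (Finset.sum_nonneg fun i _ => abs_nonneg _) fun x => ?_
  have hx : x = ∑ i, x i • (ee i : V n) := by
    funext j; simp [Finset.sum_apply, Pi.single_apply]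
  have h1 : L x = ∑ i, x i * L (ee i) := by
    conv_lhs => rw [hx]
    rw [map_sum]
    refine Finset.sum_congr rfl fun i _ => by rw [map_smul, smul_eq_mul]
  rw [h1, Finset.sum_mul]
  refine (norm_sum_le _ _).trans (Finset.sum_le_sum fun i _ => ?_)
  rw [norm_mul, Real.norm_eq_abs (L (ee i)), mul_comm]
  exact mul_le_mul_of_nonneg_left (norm_le_pi_norm x i) (abs_nonneg _)

/-- dual bound of the total variation of a smooth function -/
lemma abs_int_le {u : V n → ℝ} (hu : ContDiff ℝ (⊤ : ℕ∞) u) (hc : HasCompactSupport u) (i : Fin n)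
    {B : ℝ} (hB : ∀ ψ : V n → ℝ, ContDiff ℝ (⊤ : ℕ∞) ψ → HasCompactSupport ψ → (∀ y, |ψ y| ≤ 1) →
      |∫ y, u y * fderiv ℝ ψ y (ee i)| ≤ B) :
    ∫ y, |fderiv ℝ u y (ee i)| ≤ B := by
  set g : V n → ℝ := fun y => fderiv ℝ u y (ee i) with hg
  have hgs : ContDiff ℝ (⊤ : ℕ∞) g := contDiff_dir hu _
  have hgc : HasCompactSupport g := cs_dir hc _
  have hgi : Integrable g := hgs.continuous.integrable_of_hasCompactSupport hgc
  have hK : volume (tsupport g) ≠ ⊤ := hgc.measure_lt_top.ne
  have key : ∀ ε : ℝ, 0 < ε → ∫ y, |g y| ≤ B + ε * (volume (tsupport g)).toReal := by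
    intro ε hε
    set χ : V n → ℝ := fun y => g y / Real.sqrt (ε ^ 2 + g y ^ 2) with hχ
    have hpos : ∀ y, 0 < ε ^ 2 + g y ^ 2 := fun y => by positivity
    have hχs : ContDiff ℝ (⊤ : ℕ∞) χ := by
      refine hgs.div ((contDiff_const.add (hgs.pow 2)).sqrt fun y => (hpos y).ne') fun y => ?_
      exact (Real.sqrt_pos.2 (hpos y)).ne'
    have hχc : HasCompactSupport χ := cs_of_zero hgc fun x hx => by simp [hχ, hx]
    have hχ1 : ∀ y, |χ y| ≤ 1 := by
      intro y
      simp only [hχ]
      rw [abs_div, abs_of_pos (Real.sqrt_pos.2 (hpos y)), div_le_one (Real.sqrt_pos.2 (hpos y))]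
      apply Real.abs_le_sqrt
      nlinarith [sq_nonneg ε]
    have hχi : Integrable χ := hχs.continuous.integrable_of_hasCompactSupport hχc
    have h1 : ∫ y, χ y * g y = - ∫ y, fderiv ℝ χ y (ee i) * u y := by
      refine integral_mul_fderiv_eq_neg_fderiv_mul_of_integrable ?_ ?_ ?_ ?_ ?_
      · refine Continuous.integrable_of_hasCompactSupport ?_ ?_
        · exact (contDiff_dir hχs (ee i)).continuous.mul hu.continuous
        · exact cs_of_zero hc fun x hx => by simp [hx]
      · refine Continuous.integrable_of_hasCompactSupport ?_ ?_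
        · exact hχs.continuous.mul hgs.continuous
        · exact cs_of_zero hχc fun x hx => by simp [hx]
      · refine Continuous.integrable_of_hasCompactSupport ?_ ?_
        · exact hχs.continuous.mul hu.continuous
        · exact cs_of_zero hχc fun x hx => by simp [hx]
      · intro x _; exact (hχs.differentiable (by simp)).differentiableAt
      · intro x _; exact (hu.differentiable (by simp)).differentiableAt
    have h2 : |∫ y, χ y * g y| ≤ B := by
      rw [h1, abs_neg]
      have := hB χ hχs hχc hχ1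
      simpa [mul_comm] using this
    have h3 : ∀ y, |g y| ≤ χ y * g y + ε := by
      intro y
      simp only [hχ]
      have hs : 0 < Real.sqrt (ε ^ 2 + g y ^ 2) := Real.sqrt_pos.2 (hpos y)
      have hle : Real.sqrt (ε ^ 2 + g y ^ 2) ≤ ε + |g y| := by
        rw [show ε + |g y| = Real.sqrt ((ε + |g y|) ^ 2) from (Real.sqrt_sq (by positivity)).symm]
        apply Real.sqrt_le_sqrt
        nlinarith [abs_nonneg (g y), sq_abs (g y), mul_nonneg hε.le (abs_nonneg (g y))]
      have h4 : (|g y| - ε) * Real.sqrt (ε ^ 2 + g y ^ 2) ≤ g y * g y := by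
        by_cases hc : |g y| ≤ ε
        · have : (|g y| - ε) * Real.sqrt (ε ^ 2 + g y ^ 2) ≤ 0 :=
            mul_nonpos_of_nonpos_of_nonneg (by linarith) hs.le
          nlinarith [mul_self_nonneg (g y)]
        · push Not at hc
          calc (|g y| - ε) * Real.sqrt (ε ^ 2 + g y ^ 2) ≤ (|g y| - ε) * (ε + |g y|) :=
                mul_le_mul_of_nonneg_left hle (by linarith)
            _ = |g y| ^ 2 - ε ^ 2 := by ring
            _ ≤ g y * g y := by rw [sq_abs]; nlinarith [sq_nonneg ε]
      have h5 : |g y| - ε ≤ g y * g y / Real.sqrt (ε ^ 2 + g y ^ 2) := by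
        rw [le_div_iff₀ hs]; exact h4
      have h6 : g y / Real.sqrt (ε ^ 2 + g y ^ 2) * g y = g y * g y / Real.sqrt (ε ^ 2 + g y ^ 2) := by
        ring
      rw [h6]; linarith
    have hχgi : Integrable (fun y => χ y * g y) := by
      refine Continuous.integrable_of_hasCompactSupport ?_ ?_
      · exact hχs.continuous.mul hgs.continuous
      · exact cs_of_zero hχc fun x hx => by simp [hx]
    have hsup : ∀ y, y ∉ tsupport g → g y = 0 := fun y hy => image_eq_zero_of_notMem_tsupport hy
    have h7 : ∫ y, |g y| = ∫ y in tsupport g, |g y| := by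
      rw [setIntegral_eq_integral_of_forall_compl_eq_zero]
      intro y hy; rw [hsup y hy]; simp
    have h8 : ∫ y, χ y * g y = ∫ y in tsupport g, χ y * g y := by
      rw [setIntegral_eq_integral_of_forall_compl_eq_zero]
      intro y hy; rw [hsup y hy]; simp
    have h9 : ∫ y in tsupport g, |g y| ≤ ∫ y in tsupport g, (χ y * g y + ε) := by
      refine integral_mono hgi.abs.integrableOn ?_ h3
      exact hχgi.integrableOn.add (integrableOn_const (by exact hK))
    rw [integral_add hχgi.integrableOn (integrableOn_const (by exact hK))] at h9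
    rw [h7]
    refine h9.trans ?_
    rw [← h8, setIntegral_const, smul_eq_mul, mul_comm]
    have := le_abs_self (∫ y, χ y * g y)
    have hh : (volume.real (tsupport g)) = (volume (tsupport g)).toReal := rfl
    rw [hh]
    linarith
  refine le_of_forall_pos_le_add fun δ hδ => ?_
  have := key (δ / ((volume (tsupport g)).toReal + 1)) (by positivity)
  refine this.trans ?_
  have h1 : δ / ((volume (tsupport g)).toReal + 1) * (volume (tsupport g)).toReal ≤ δ := by
    rw [div_mul_eq_mul_div, div_le_iff₀ (by positivity)]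
    nlinarith [ENNReal.toReal_nonneg (a := volume (tsupport g))]
  linarith

/-- Isoperimetric inequality for an integer valued function. -/
theorem gns_int {p : ℝ} (hp : Real.HolderConjugate (n : ℝ) p) {w : V n → ℝ} (hw : Integrable w)
    (hcs : HasCompactSupport w) (hint : ∀ᵐ y, ∃ m : ℤ, w y = m) {B : ℝ}
    (hB : ∀ (i : Fin n) (ψ : V n → ℝ), ContDiff ℝ (⊤ : ℕ∞) ψ → HasCompactSupport ψ →
      (∀ y, |ψ y| ≤ 1) → |∫ y, w y * fderiv ℝ ψ y (ee i)| ≤ B) :
    ∫ y, |w y| ≤ (n * B) ^ p := by
  have hn : 0 < n := by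
    have := hp.lt
    exact_mod_cast (lt_trans zero_lt_one this)
  have hB0 : 0 ≤ B := by
    have := hB ⟨0, hn⟩ (fun _ => 0) contDiff_const (by
      rw [HasCompactSupport, tsupport]; simp) (by simp)
    exact (abs_nonneg _).trans this
  have hp1 : 1 ≤ p := hp.symm.lt.le
  have hk : ∀ k : ℕ, ∫⁻ x, ‖cv k w x‖ₑ ^ p ≤ (ENNReal.ofReal (n * B)) ^ p := by
    intro k
    set u := cv k w with hu
    have hus : ContDiff ℝ (⊤ : ℕ∞) u := cv_smooth k hw.locallyIntegrable
    have huc : HasCompactSupport u := cv_cs k hcs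
    have h1 : ∀ i, ∫ y, |fderiv ℝ u y (ee i)| ≤ B := by
      intro i
      refine abs_int_le hus huc i fun ψ hψ hψc hψ1 => ?_
      have hd := contDiff_dir hψ (ee i)
      obtain ⟨C, hC⟩ := (hd.continuous).bounded_above_of_compact_support (cs_dir hψc (ee i))
      have h2 := cv_fubini k hw hd.continuous (C := C) hC
      rw [hu, h2]
      have h3 : ∀ z, cv k (fun y => fderiv ℝ ψ y (ee i)) z = fderiv ℝ (cv k ψ) z (ee i) := fun z =>
        (cv_fderiv_right k hψ hψc z (ee i)).symm
      simp only [h3]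
      exact hB i (cv k ψ) (cv_smooth k (hψ.continuous.locallyIntegrable)) (cv_cs k hψc)
        (cv_abs_le k hψ1)
    have hp' : Real.HolderConjugate (Fintype.card (Fin n) : ℝ) p := by simpa using hp
    have h4 := lintegral_pow_le_pow_lintegral_fderiv_aux (ι := Fin n) (F := ℝ) hp'
      (u := u) (hus.of_le (by exact_mod_cast le_top)) huc
    refine h4.trans (ENNReal.rpow_le_rpow ?_ (by linarith))
    have h5 : ∀ x, ‖fderiv ℝ u x‖ₑ ≤ ENNReal.ofReal (∑ i, |fderiv ℝ u x (ee i)|) := by
      intro x
      rw [← ofReal_norm_eq_enorm]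
      exact ENNReal.ofReal_le_ofReal (opNorm_le_sum _)
    refine (lintegral_mono h5).trans ?_
    have hi : ∀ i, Integrable (fun x => |fderiv ℝ u x (ee i)|) := fun i =>
      ((contDiff_dir hus (ee i)).continuous.integrable_of_hasCompactSupport (cs_dir huc _)).abs
    rw [← ofReal_integral_eq_lintegral_ofReal (integrable_finset_sum _ fun i _ => hi i)
      (Eventually.of_forall fun x => Finset.sum_nonneg fun i _ => abs_nonneg _)]
    refine ENNReal.ofReal_le_ofReal ?_
    rw [integral_finset_sum _ fun i _ => hi i]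
    calc ∑ i, ∫ x, |fderiv ℝ u x (ee i)| ≤ ∑ i : Fin n, B := Finset.sum_le_sum fun i _ => h1 i
      _ = n * B := by simp
  have hlim : ∀ᵐ x, Tendsto (fun k => cv k w x) atTop (𝓝 (w x)) :=
    cv_ae_tendsto hw.locallyIntegrable
  have hfat : ∫⁻ x, ‖w x‖ₑ ^ p ≤ (ENNReal.ofReal (n * B)) ^ p := by
    have h1 : ∫⁻ x, ‖w x‖ₑ ^ p = ∫⁻ x, liminf (fun k => ‖cv k w x‖ₑ ^ p) atTop := by
      refine lintegral_congr_ae ?_
      filter_upwards [hlim] with x hx
      have : Tendsto (fun k => ‖cv k w x‖ₑ ^ p) atTop (𝓝 (‖w x‖ₑ ^ p)) :=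
        (ENNReal.continuous_rpow_const.tendsto _).comp hx.enorm
      exact this.liminf_eq.symm
    rw [h1]
    refine (lintegral_liminf_le' (u := atTop) fun k => ?_).trans ?_
    · exact (((cv_smooth k hw.locallyIntegrable).continuous.measurable.enorm).pow_const p).aemeasurable
    · refine liminf_le_of_frequently_le' (Frequently.of_forall hk)
  have hle : ∫⁻ x, ‖w x‖ₑ ≤ (ENNReal.ofReal (n * B)) ^ p := by
    refine le_trans (lintegral_mono_ae ?_) hfat
    filter_upwards [hint] with x hx
    obtain ⟨m, hm⟩ := hx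
    by_cases h0 : m = 0
    · rw [hm, h0]; simp
    · have h1 : (1 : ℝ≥0∞) ≤ ‖w x‖ₑ := by
        rw [hm, ← ofReal_norm_eq_enorm, ← ENNReal.ofReal_one]
        refine ENNReal.ofReal_le_ofReal ?_
        rw [Real.norm_eq_abs, ← Int.cast_abs]
        exact_mod_cast Int.one_le_abs h0
      calc ‖w x‖ₑ = ‖w x‖ₑ ^ (1:ℝ) := by rw [ENNReal.rpow_one]
        _ ≤ ‖w x‖ₑ ^ p := ENNReal.rpow_le_rpow_of_exponent_le h1 hp1
  rw [ENNReal.ofReal_rpow_of_nonneg (by positivity) (by linarith)] at hle
  have h10 : ENNReal.ofReal (∫ y, |w y|) = ∫⁻ x, ‖w x‖ₑ := by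
    rw [ofReal_integral_eq_lintegral_ofReal hw.abs (Eventually.of_forall fun x => abs_nonneg _)]
    refine lintegral_congr fun x => ?_
    rw [← ofReal_norm_eq_enorm, Real.norm_eq_abs]
  rw [← h10] at hle
  exact (ENNReal.ofReal_le_ofReal_iff (by positivity)).1 hle

end

end Pool.Agent.H721KI
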