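import Mathlib
import Pool.Agent.H721KI.Gns
import Pool.Agent.H721KI.Area

/-!
# Isoperimetric inequality for smooth maps
-/

set_option autoImplicit false
set_option linter.all false

open MeasureTheory Set Filter Topology Metric
open scoped ENNReal NNReal Convolution

namespace Pool.Agent.H721KI

noncomputable section

variable {n : ℕ}

lemma det_eq {F : V n → V n} (hF : Differentiable ℝ F) (x : V n) :
    (DM F x).det = (fderiv ℝ F x).det := by
  have h : DM F x = LinearMap.toMatrix' ((fderiv ℝ F x : V n →L[ℝ] V n) : V n →ₗ[ℝ] V n) := by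
    ext i j
    rw [LinearMap.toMatrix'_apply]
    simp only [DM, Matrix.of_apply]
    have h := (hasFDerivAt_pi'.1 (hF x).hasFDerivAt i).fderiv
    rw [h]
    rfl
  rw [h, LinearMap.det_toMatrix']

lemma det_cont {F : V n → V n} (hF : ContDiff ℝ (⊤ : ℕ∞) F) : Continuous (fun x => (DM F x).det) :=
  (contDiff_det (contDiff_DM hF)).continuous

lemma area_real {F : V n → V n} (hF : ContDiff ℝ (⊤ : ℕ∞) F) {S : Set (V n)} (hS : MeasurableSet S)
    (hb : Bornology.IsBounded S) (hdet : ∀ x ∈ S, (DM F x).det ≠ 0) :
    ∃ N : V n → ℝ, Integrable N ∧ (∀ᵐ y, ∃ m : ℕ, N y = m) ∧ (∀ y ∉ F '' S, N y = 0) ∧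
      ∀ φ : V n → ℝ, Continuous φ →
        ∫ x in S, φ (F x) * |(DM F x).det| = ∫ y, N y * φ y := by
  have hFd : Differentiable ℝ F := hF.differentiable (by simp)
  have hF1 : ContDiff ℝ 1 F := hF.of_le (by exact_mod_cast le_top)
  obtain ⟨N, hN, hi, h0, hmap⟩ := area_measure hF1 hS (fun x hx => by
    rw [← det_eq hFd]; exact hdet x hx)
  have hmap' : Measure.map F ((volume.restrict S).withDensity
      (fun x => ENNReal.ofReal |(DM F x).det|)) = volume.withDensity N := by
    rw [← hmap]; congr 2; funext x; rw [det_eq hFd]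
  have hdm : Measurable (fun x => ENNReal.ofReal |(DM F x).det|) :=
    (det_cont hF).abs.measurable.ennreal_ofReal
  have hvol : volume S < ⊤ := hb.measure_lt_top
  have hfin : ∫⁻ y, N y ≠ ⊤ := by
    have h1 : ∫⁻ y, N y = ∫⁻ x in S, ENNReal.ofReal |(DM F x).det| := by
      have := congrArg (fun m : Measure (V n) => m univ) hmap'
      rw [Measure.map_apply hF.continuous.measurable MeasurableSet.univ, preimage_univ,
        withDensity_apply _ MeasurableSet.univ, withDensity_apply _ MeasurableSet.univ,
        Measure.restrict_univ, Measure.restrict_univ] at this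
      exact this.symm
    rw [h1]
    obtain ⟨C, hC⟩ := (hb.isCompact_closure).exists_bound_of_continuousOn (det_cont hF).continuousOn
    have : ∫⁻ x in S, ENNReal.ofReal |(DM F x).det| ≤ ∫⁻ x in S, ENNReal.ofReal C := by
      refine setLIntegral_mono measurable_const fun x hx => ENNReal.ofReal_le_ofReal ?_
      exact hC x (subset_closure hx)
    refine (this.trans_lt ?_).ne
    rw [setLIntegral_const]
    exact ENNReal.mul_lt_top ENNReal.ofReal_lt_top hvol
  have hae : ∀ᵐ y, N y < ⊤ := ae_lt_top hN hfin
  refine ⟨fun y => (N y).toReal, ?_, ?_, ?_, ?_⟩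
  · exact integrable_toReal_of_lintegral_ne_top hN.aemeasurable hfin
  · filter_upwards [hae] with y hy
    rcases hi y with h | ⟨m, hm⟩
    · exact absurd h hy.ne
    · exact ⟨m, by rw [hm]; simp⟩
  · intro y hy; simp [h0 y hy]
  · intro φ hφ
    have h1 : ∫ y, φ y ∂(Measure.map F ((volume.restrict S).withDensity
      (fun x => ENNReal.ofReal |(DM F x).det|))) = ∫ y, φ y ∂(volume.withDensity N) := by rw [hmap']
    rw [integral_map hF.continuous.measurable.aemeasurable hφ.aestronglyMeasurable,
      integral_withDensity_eq_integral_toReal_smul hdm (by simp),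
      integral_withDensity_eq_integral_toReal_smul hN (hae)] at h1
    simp only [smul_eq_mul] at h1
    rw [← h1]
    congr 1; funext x
    rw [ENNReal.toReal_ofReal (abs_nonneg _), mul_comm]

/-- Isoperimetric inequality for a smooth map on a bounded set. -/
theorem iso {p : ℝ} (hp : Real.HolderConjugate (n : ℝ) p) {F : V n → V n}
    (hF : ContDiff ℝ (⊤ : ℕ∞) F) {D : Set (V n)} (hD : MeasurableSet D)
    (hDb : Bornology.IsBounded D) {B : ℝ}
    (hB : ∀ (i : Fin n) (ψ : V n → ℝ), ContDiff ℝ (⊤ : ℕ∞) ψ → HasCompactSupport ψ →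
      (∀ y, |ψ y| ≤ 1) → |∫ x in D, fderiv ℝ ψ (F x) (ee i) * (DM F x).det| ≤ B)
    {φ : V n → ℝ} (hφ : Continuous φ) {C : ℝ} (hφC : ∀ y, |φ y| ≤ C) :
    |∫ x in D, φ (F x) * (DM F x).det| ≤ C * (n * B) ^ p := by
  have hdc := det_cont hF
  set S1 := D ∩ {x | 0 < (DM F x).det} with hS1
  set S2 := D ∩ {x | (DM F x).det < 0} with hS2
  have hm1 : MeasurableSet S1 := hD.inter (measurableSet_lt measurable_const hdc.measurable)
  have hm2 : MeasurableSet S2 := hD.inter (measurableSet_lt hdc.measurable measurable_const)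
  have hb1 : Bornology.IsBounded S1 := hDb.subset inter_subset_left
  have hb2 : Bornology.IsBounded S2 := hDb.subset inter_subset_left
  obtain ⟨N1, hi1, hn1, hz1, hg1⟩ := area_real hF hm1 hb1 (fun x hx => hx.2.ne')
  obtain ⟨N2, hi2, hn2, hz2, hg2⟩ := area_real hF hm2 hb2 (fun x hx => hx.2.ne)
  set w : V n → ℝ := fun y => N1 y - N2 y with hw
  have hwi : Integrable w := hi1.sub hi2
  have hwint : ∀ᵐ y, ∃ m : ℤ, w y = m := by
    filter_upwards [hn1, hn2] with y ⟨m1, h1⟩ ⟨m2, h2⟩
    exact ⟨m1 - m2, by simp [hw, h1, h2]⟩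
  have hbF : Bornology.IsBounded (F '' D) := by
    have hc : IsCompact (F '' closure D) := hDb.isCompact_closure.image hF.continuous
    exact hc.isBounded.subset (image_mono subset_closure)
  have hwcs : HasCompactSupport w := by
    refine HasCompactSupport.intro hbF.isCompact_closure fun y hy => ?_
    have h1 : y ∉ F '' S1 := fun h => hy (subset_closure (image_mono inter_subset_left h))
    have h2 : y ∉ F '' S2 := fun h => hy (subset_closure (image_mono inter_subset_left h))
    simp [hw, hz1 y h1, hz2 y h2]
  -- the representation formula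
  have hrep : ∀ g : V n → ℝ, Continuous g → ∀ M : ℝ, (∀ y, |g y| ≤ M) →
      ∫ x in D, g (F x) * (DM F x).det = ∫ y, w y * g y := by
    intro g hg M hM
    have hgF : Continuous (fun x => g (F x)) := hg.comp hF.continuous
    have hloc : ∀ f : V n → ℝ, Continuous f → IntegrableOn f D := fun f hf =>
      (hf.continuousOn.integrableOn_compact hDb.isCompact_closure).mono_set subset_closure
    have e1 : ∫ x in D, g (F x) * (DM F x).det =
        (∫ x in S1, g (F x) * |(DM F x).det|) - ∫ x in S2, g (F x) * |(DM F x).det| := by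
      rw [← integral_indicator hD, ← integral_indicator hm1, ← integral_indicator hm2,
        ← integral_sub]
      · congr 1; funext x
        by_cases hx : x ∈ D
        · rcases lt_trichotomy ((DM F x).det) 0 with h | h | h
          · have h1 : x ∉ S1 := fun hh => absurd hh.2 (not_lt.2 h.le)
            have h2 : x ∈ S2 := ⟨hx, h⟩
            simp only [Set.indicator_of_mem hx, Set.indicator_of_notMem h1, Set.indicator_of_mem h2,
              abs_of_neg h]
            ring
          · have h1 : x ∉ S1 := fun hh => absurd hh.2 (by simp [h])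
            have h2 : x ∉ S2 := fun hh => absurd hh.2 (by simp [h])
            simp only [Set.indicator_of_mem hx, Set.indicator_of_notMem h1,
              Set.indicator_of_notMem h2, h]
            ring
          · have h1 : x ∈ S1 := ⟨hx, h⟩
            have h2 : x ∉ S2 := fun hh => absurd hh.2 (not_lt.2 h.le)
            simp only [Set.indicator_of_mem hx, Set.indicator_of_notMem h2, Set.indicator_of_mem h1,
              abs_of_pos h]
            ring
        · have h1 : x ∉ S1 := fun hh => hx hh.1
          have h2 : x ∉ S2 := fun hh => hx hh.1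
          simp [Set.indicator_of_notMem hx, Set.indicator_of_notMem h1, Set.indicator_of_notMem h2]
      · exact (((hloc _ (hgF.mul hdc.abs)).mono_set inter_subset_left)).integrable_indicator hm1
      · exact (((hloc _ (hgF.mul hdc.abs)).mono_set inter_subset_left)).integrable_indicator hm2
    rw [e1, hg1 g hg, hg2 g hg, ← integral_sub]
    · congr 1; funext y; simp only [hw]; ring
    · exact hi1.mul_bdd (c := M) hg.aestronglyMeasurable (Eventually.of_forall hM)
    · exact hi2.mul_bdd (c := M) hg.aestronglyMeasurable (Eventually.of_forall hM)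
  have hiso := gns_int hp hwi hwcs hwint (B := B) (fun i ψ hψ hψc hψ1 => by
    have hd := contDiff_dir hψ (ee i)
    obtain ⟨M, hM⟩ := (hd.continuous).bounded_above_of_compact_support (cs_dir hψc (ee i))
    rw [← hrep _ hd.continuous M hM]
    exact hB i ψ hψ hψc hψ1)
  rw [hrep φ hφ C hφC]
  have h1 : ‖∫ y, w y * φ y‖ ≤ ∫ y, |w y| * C := by
    refine norm_integral_le_of_norm_le (hwi.abs.mul_const C) (Eventually.of_forall fun y => ?_)
    rw [norm_mul, Real.norm_eq_abs, Real.norm_eq_abs]
    exact mul_le_mul_of_nonneg_left (hφC y) (abs_nonneg _)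
  rw [integral_mul_const] at h1
  have hC0 : 0 ≤ C := (abs_nonneg _).trans (hφC 0)
  calc |∫ y, w y * φ y| ≤ (∫ y, |w y|) * C := h1
    _ ≤ (n * B) ^ p * C := mul_le_mul_of_nonneg_right hiso hC0
    _ = C * (n * B) ^ p := by ring

end

end Pool.Agent.H721KI
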